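import Pool.Agent.R794.CT.Defs

/-!
# Nested differences of monotone conjunctions: closure properties and the learner
-/

set_option autoImplicit false

namespace Pool.Agent.R794.CT

open Pool.Agent.NPC

/-! ### Closure -/

theorem size_le {μ : ∀ n : ℕ, List (Finset (Fin n)) → ℕ} {n : ℕ} {c : (Fin n → Bool) → Bool}
    {L : List (Finset (Fin n))} (h : c = nest false L) : (Nested μ).size n c ≤ μ n L :=
  Nat.sInf_le ⟨L, h, rfl⟩

theorem exists_size {μ : ∀ n : ℕ, List (Finset (Fin n)) → ℕ} {n : ℕ} {c : (Fin n → Bool) → Bool}
    (h : (Nested μ).Mem n c) : ∃ L : List (Finset (Fin n)), c = nest false L ∧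
      μ n L = (Nested μ).size n c := by
  obtain ⟨L, hL⟩ := h
  obtain ⟨L', h1, h2⟩ := Nat.sInf_mem (s := {s | ∃ L : List (Finset (Fin n)),
    c = nest false L ∧ s = μ n L}) ⟨_, L, hL, rfl⟩
  exact ⟨L', h1, h2.symm⟩

theorem nest_map {V W : Type} (e : V ↪ W) (b : Bool) (L : List (Finset V)) (x : W → Bool) :
    nest b (L.map (Finset.map e)) x = nest b L (fun i => x (e i)) := by
  induction L generalizing b with
  | nil => rfl
  | cons A L ih =>
    simp only [List.map_cons, nest, ih]
    congr 1
    simp

/-- a measure which does not increase under the operations on descriptions -/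
structure Good (μ : ∀ n : ℕ, List (Finset (Fin n)) → ℕ) : Prop where
  length_le : ∀ n L, L.length ≤ μ n L
  map_le : ∀ (m n : ℕ) (e : Fin m ↪ Fin n) L, μ n (L.map (Finset.map e)) ≤ μ m L
  cons_le : ∀ (m n : ℕ) (A : Finset (Fin m)) (B : Finset (Fin n)) (L : List (Finset (Fin m)))
    (M : List (Finset (Fin n))), A.card ≤ B.card → μ m L ≤ μ n M → μ m (A :: L) ≤ μ n (B :: M)
  nil_le : ∀ (m n : ℕ) (L : List (Finset (Fin n))), μ m [] ≤ μ n L

theorem good_number : Good number where
  length_le _ _ := le_rfl
  map_le _ _ _ _ := by simp [number]
  cons_le _ _ _ _ _ _ _ h := by simpa [number] using h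
  nil_le _ _ _ := by simp [number]

theorem good_total : Good total where
  length_le _ _ := by simp [total]
  map_le _ _ _ L := by
    simp only [total, List.length_map, List.map_map]
    apply le_of_eq
    congr 2
    apply List.map_congr_left
    intro A _
    simp
  cons_le _ _ _ _ _ _ h1 h := by
    simp only [total, List.length_cons, List.map_cons, List.sum_cons] at h ⊢
    omega
  nil_le _ _ _ := by simp [total]

theorem embeddingClosed {μ : ∀ n : ℕ, List (Finset (Fin n)) → ℕ} (hμ : Good μ) :
    EmbeddingClosed (Nested μ) := by
  intro m n e c hc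
  obtain ⟨L, hL, hs⟩ := exists_size hc
  have h : (fun x : Fin n → Bool => c fun i => x (e i)) = nest false (L.map (Finset.map e)) := by
    funext x
    rw [nest_map, hL]
  exact ⟨⟨_, h⟩, (size_le h).trans (hs ▸ hμ.map_le m n e L)⟩

open Classical in
/-- the description after fixing variables -/
noncomputable def proj {m n : ℕ} (e : Fin m ↪ Fin n) (a : Fin n → Bool) :
    List (Finset (Fin n)) → List (Finset (Fin m))
  | [] => []
  | A :: L => if ∀ v ∈ A, (∃ i, e i = v) ∨ a v = true then
      (Finset.univ.filter fun i => e i ∈ A) :: proj e a L else []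

theorem fill_apply {m n : ℕ} (e : Fin m ↪ Fin n) (a : Fin n → Bool) (y : Fin m → Bool)
    (i : Fin m) : fill e a y (e i) = y i := by
  have h : ∃ j, e j = e i := ⟨i, rfl⟩
  unfold fill
  rw [dif_pos h]
  congr 1
  exact e.injective h.choose_spec

theorem fill_of_not {m n : ℕ} (e : Fin m ↪ Fin n) (a : Fin n → Bool) (y : Fin m → Bool)
    (j : Fin n) (h : ¬ ∃ i, e i = j) : fill e a y j = a j := by
  unfold fill
  rw [dif_neg h]

theorem nest_proj {m n : ℕ} (e : Fin m ↪ Fin n) (a : Fin n → Bool) (b : Bool)
    (L : List (Finset (Fin n))) (y : Fin m → Bool) :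
    nest b L (fill e a y) = nest b (proj e a L) y := by
  induction L generalizing b with
  | nil => rfl
  | cons A L ih =>
    by_cases hA : ∀ v ∈ A, (∃ i, e i = v) ∨ a v = true
    · rw [proj, if_pos hA]
      simp only [nest, ih]
      congr 1
      simp only [Finset.mem_filter, Finset.mem_univ, true_and, eq_iff_iff]
      constructor
      · intro h i hi
        rw [← fill_apply e a y i]
        exact h _ hi
      · intro h v hv
        by_cases h1 : ∃ i, e i = v
        · obtain ⟨i, rfl⟩ := h1
          rw [fill_apply]
          exact h i hv
        · rw [fill_of_not _ _ _ _ h1]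
          exact (hA v hv).resolve_left h1
    · rw [proj, if_neg hA]
      simp only [nest]
      rw [if_neg]
      intro h
      apply hA
      intro v hv
      by_cases h1 : ∃ i, e i = v
      · exact Or.inl h1
      · right
        rw [← fill_of_not e a y v h1]
        exact h v hv

theorem proj_le {μ : ∀ n : ℕ, List (Finset (Fin n)) → ℕ} (hμ : Good μ) {m n : ℕ}
    (e : Fin m ↪ Fin n) (a : Fin n → Bool) (L : List (Finset (Fin n))) :
    μ m (proj e a L) ≤ μ n L := by
  induction L with
  | nil => exact hμ.nil_le m n []
  | cons A L ih =>
    by_cases hA : ∀ v ∈ A, (∃ i, e i = v) ∨ a v = true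
    · rw [proj, if_pos hA]
      refine hμ.cons_le _ _ _ _ _ _ ?_ ih
      rw [← Finset.card_map e]
      apply Finset.card_le_card
      intro v hv
      rw [Finset.mem_map] at hv
      obtain ⟨i, hi, rfl⟩ := hv
      exact (Finset.mem_filter.1 hi).2
    · rw [proj, if_neg hA]
      exact hμ.nil_le m n _

theorem projectionClosed {μ : ∀ n : ℕ, List (Finset (Fin n)) → ℕ} (hμ : Good μ) :
    ProjectionClosed (Nested μ) := by
  intro m n e a c hc
  obtain ⟨L, hL, hs⟩ := exists_size hc
  have h : (fun y : Fin m → Bool => c (fill e a y)) = nest false (proj e a L) := by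
    funext y
    rw [hL, nest_proj]
  exact ⟨⟨_, h⟩, (size_le h).trans (hs ▸ proj_le hμ e a L)⟩

/-! ### The learner in the infinite-attribute model -/

/-- all members of `H` are in `X` -/
def sub (H X : List ℕ) : Bool := H.all fun h => decide (h ∈ X)

theorem sub_iff (H X : List ℕ) : sub H X = true ↔ ∀ h ∈ H, h ∈ X := by
  simp [sub]

/-- the guess -/
def gs (b : Bool) : List (List ℕ) → List ℕ → Bool
  | [], _ => b
  | H :: r, X => if sub H X = true then gs (!b) r X else b

/-- the new hypothesis after a mistake -/
def upd : List (List ℕ) → List ℕ → List (List ℕ)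
  | [], X => [X]
  | H :: r, X => if sub H X = true then H :: upd r X else (H.filter fun h => decide (h ∈ X)) :: r

/-- The learner. Its state is a list of conjunctions `H 1, H 2, …`, and it guesses according to
their nested difference. After a mistake the first conjunction which is not satisfied by the
example `X` is intersected with `X`; if there is none, then `X` is appended. -/
def lrn : Learner (List ℕ) where
  State := List (List ℕ)
  start := []
  guess z := gs false z.1 z.2
  next z := if gs false z.1 z.2.1 = z.2.2 then z.1 else upd z.1 z.2.1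

/-- the hypothesis `s` is consistent with the description `M` -/
def Inv (U : Finset ℕ) : List (List ℕ) → List (Finset ℕ) → Prop
  | [], _ => True
  | _ :: _, [] => False
  | H :: s, A :: M => (∀ v ∈ U ∪ A, v ∈ H) ∧ Inv (U ∪ A) s M

theorem inv_length {U : Finset ℕ} {s : List (List ℕ)} {M : List (Finset ℕ)} (h : Inv U s M) :
    s.length ≤ M.length := by
  induction s generalizing U M with
  | nil => simp
  | cons H s ih =>
    cases M with
    | nil => exact h.elim
    | cons A M => simpa using ih h.2

theorem inv_upd {U : Finset ℕ} {s : List (List ℕ)} {M : List (Finset ℕ)} {b : Bool} {X : List ℕ}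
    (h : Inv U s M) (hU : ∀ v ∈ U, v ∈ X)
    (hm : gs b s X ≠ nest b M fun v => decide (v ∈ X)) : Inv U (upd s X) M := by
  induction s generalizing U M b with
  | nil =>
    cases M with
    | nil => exact (hm rfl).elim
    | cons A M =>
      simp only [gs, nest, decide_eq_true_eq] at hm
      have hA : ∀ v ∈ A, v ∈ X := by
        by_contra hc
        rw [if_neg hc] at hm
        exact hm rfl
      refine ⟨fun v hv => ?_, trivial⟩
      rcases Finset.mem_union.1 hv with h1 | h1
      · exact hU v h1
      · exact hA v h1
  | cons H s ih =>
    cases M with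
    | nil => exact h.elim
    | cons A M =>
      simp only [gs, nest, decide_eq_true_eq] at hm
      by_cases hs : sub H X = true
      · have hHX := (sub_iff H X).1 hs
        have hA : ∀ v ∈ A, v ∈ X := fun v hv =>
          hHX v (h.1 v (Finset.mem_union_right _ hv))
        rw [if_pos hs, if_pos hA] at hm
        rw [upd, if_pos hs]
        refine ⟨h.1, ih h.2 ?_ hm⟩
        intro v hv
        rcases Finset.mem_union.1 hv with h1 | h1
        · exact hU v h1
        · exact hA v h1
      · rw [if_neg hs] at hm
        have hA : ∀ v ∈ A, v ∈ X := by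
          by_contra hc
          rw [if_neg hc] at hm
          exact hm rfl
        rw [upd, if_neg hs]
        refine ⟨fun v hv => ?_, h.2⟩
        rw [List.mem_filter]
        refine ⟨h.1 v hv, ?_⟩
        rw [decide_eq_true_eq]
        rcases Finset.mem_union.1 hv with h1 | h1
        · exact hU v h1
        · exact hA v h1

/-- the total number of the variables in the conjunctions -/
def pot (s : List (List ℕ)) : ℕ := (s.map List.length).sum

theorem pot_upd {s : List (List ℕ)} {X : List ℕ} {N : ℕ} (hX : X.length ≤ N) :
    pot (upd s X) + 1 + (N + 1) * s.length ≤ pot s + (N + 1) * (upd s X).length := by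
  induction s with
  | nil =>
    simp only [pot, upd, List.map_cons, List.map_nil, List.sum_cons, List.sum_nil,
      List.length_nil, List.length_cons]
    omega
  | cons H s ih =>
    by_cases hs : sub H X = true
    · rw [upd, if_pos hs]
      simp only [pot, List.map_cons, List.sum_cons, List.length_cons] at ih ⊢
      nlinarith
    · rw [upd, if_neg hs]
      have h1 : (H.filter fun h => decide (h ∈ X)).length < H.length := by
        rw [List.length_filter_lt_length_iff_exists]
        by_contra hc
        push Not at hc
        apply hs
        rw [sub_iff]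
        intro h hh
        simpa using hc h hh
      simp only [pot, List.map_cons, List.sum_cons, List.length_cons]
      omega

theorem upd_mem {s : List (List ℕ)} {X : List ℕ} {D : ℕ} (hX : sz X ≤ D)
    (h : ∀ H ∈ s, sz H ≤ D) : ∀ H ∈ upd s X, sz H ≤ D := by
  induction s with
  | nil =>
    intro H hH
    simp only [upd, List.mem_singleton] at hH
    rw [hH]
    exact hX
  | cons H s ih =>
    have h1 := ih fun K hK => h K (List.mem_cons_of_mem _ hK)
    have h2 := h H List.mem_cons_self
    by_cases hs : sub H X = true
    · rw [upd, if_pos hs]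
      intro K hK
      rcases List.mem_cons.1 hK with rfl | hK
      · exact h2
      · exact h1 K hK
    · rw [upd, if_neg hs]
      intro K hK
      rcases List.mem_cons.1 hK with rfl | hK
      · refine le_trans ?_ h2
        clear hs h2 hK ih h
        induction H with
        | nil => simp
        | cons a H ih2 =>
          by_cases ha : a ∈ X
          · rw [List.filter_cons_of_pos (by simpa using ha)]
            simp only [sz_list_cons]
            omega
          · rw [List.filter_cons_of_neg (by simpa using ha)]
            simp only [sz_list_cons]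
            omega
      · exact h K (List.mem_cons_of_mem _ hK)

theorem lrn_bound (M : List (Finset ℕ)) (N D : ℕ) (l : List (List ℕ))
    (hl : ∀ x ∈ l, x.length ≤ N ∧ sz x ≤ D) :
    ∃ s : List (List ℕ),
      lrn.state (l.map fun x => (x, nest false M fun v => decide (v ∈ x))) = s ∧
      Inv ∅ s M ∧ (∀ H ∈ s, sz H ≤ D) ∧
      lrn.mistakes (l.map fun x => (x, nest false M fun v => decide (v ∈ x))) + pot s ≤
        (N + 1) * s.length := by
  induction l with
  | nil => exact ⟨[], rfl, trivial, by simp, by simp [pot, Learner.mistakes]⟩
  | cons X l ih =>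
    obtain ⟨s, h1, h2, h3, h4⟩ := ih fun x hx => hl x (List.mem_cons_of_mem _ hx)
    obtain ⟨hX, hD⟩ := hl X List.mem_cons_self
    simp only [List.map_cons, Learner.state, Learner.mistakes, h1]
    by_cases hg : gs false s X = nest false M fun v => decide (v ∈ X)
    · refine ⟨s, ?_, h2, h3, ?_⟩
      · change (if gs false s X = _ then s else upd s X) = s
        rw [if_pos hg]
      · have : (if lrn.guess (s, X) = nest false M fun v => decide (v ∈ X) then 0 else 1) = 0 :=
          if_pos hg
        omega
    · refine ⟨upd s X, ?_, inv_upd h2 (by simp) hg, upd_mem hD h3, ?_⟩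
      · change (if gs false s X = _ then s else upd s X) = upd s X
        rw [if_neg hg]
      · have h5 := pot_upd (s := s) hX
        have : (if lrn.guess (s, X) = nest false M fun v => decide (v ∈ X) then 0 else 1) = 1 :=
          if_neg hg
        omega

end Pool.Agent.R794.CT
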