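import Pool.Agent.R794.CT.A

/-!
# The learner works in polynomial time
-/

set_option autoImplicit false

namespace Pool.Agent.R794.CT

open Pool.Agent.NPC

theorem PolyTimeComputable.of_poly {α β : Type} [TEnc α] [TDec α] [TEnc β] {f : α → β}
    (hf : Poly f) : PolyTimeComputable f := by
  have h1 : Poly (fun x : List Bool => (unbits α x).map f) := by
    refine (Poly.optCases (o := fun x : List Bool => unbits α x) (g := fun _ => (none : Option β))
      (h := fun _ a => some (f a)) poly_unbits (NPC.Poly.const _)
      (Poly.some (hf.comp (Poly.snd Poly.id)))).congr fun x => ?_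
    cases unbits α x <;> rfl
  refine ⟨_, polyTime_opt h1, fun a => ?_⟩
  rw [unbits_bits]
  rfl

theorem PolyTimeComputable.comp {α β γ : Type} [TEnc α] [TEnc β] [TEnc γ] {g : β → γ} {f : α → β}
    (hg : PolyTimeComputable g) (hf : PolyTimeComputable f) :
    PolyTimeComputable fun a => g (f a) := by
  obtain ⟨G, h1, h2⟩ := hg
  obtain ⟨F, h3, h4⟩ := hf
  refine ⟨fun x => G (F x), H642R2.TMSim.polyTime_comp h1 h3, fun a => ?_⟩
  change G (F (bits a)) = bits (g (f a))
  rw [h4, h2]

theorem poly_sub {α : Type} [TEnc α] {H X : α → List ℕ} (hH : Poly H) (hX : Poly X) :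
    Poly fun a => sub (H a) (X a) :=
  Poly.all (p := fun a h => decide (h ∈ X a)) hH
    (Poly.decide_mem (Poly.snd Poly.id) (hX.comp (Poly.fst Poly.id)))

/-- the step of the computation of the guess -/
def gstep (X : List ℕ) (t : Bool × Bool) (H : List ℕ) : Bool × Bool :=
  bif t.2 then (bif sub H X then (!t.1, true) else (t.1, false)) else t

theorem gstep_fold_false (X : List ℕ) (s : List (List ℕ)) (b : Bool) :
    s.foldl (gstep X) (b, false) = (b, false) := by
  induction s with
  | nil => rfl
  | cons H s ih => rw [List.foldl_cons]; exact ih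

theorem gs_eq (X : List ℕ) (s : List (List ℕ)) (b : Bool) :
    gs b s X = (s.foldl (gstep X) (b, true)).1 := by
  induction s generalizing b with
  | nil => rfl
  | cons H s ih =>
    rw [List.foldl_cons, gs]
    by_cases h : sub H X = true
    · rw [if_pos h, ih]
      congr 2
      simp [gstep, h]
    · rw [if_neg h]
      have : gstep X (b, true) H = (b, false) := by
        rw [Bool.not_eq_true] at h
        simp [gstep, h]
      rw [this, gstep_fold_false]

theorem poly_gs : Poly fun z : List (List ℕ) × List ℕ => gs false z.1 z.2 := by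
  have h : Poly fun z : List (List ℕ) × List ℕ => z.1.foldl (gstep z.2) (false, true) := by
    refine Poly.foldl (F := fun z : List (List ℕ) × List ℕ => gstep z.2) (Poly.fst Poly.id)
      (NPC.Poly.const _) ?_ 7 ?_
    · refine Poly.cond (Poly.snd (Poly.fst (Poly.snd Poly.id))) (Poly.cond
        (poly_sub (Poly.snd (Poly.snd Poly.id)) (Poly.snd (Poly.fst Poly.id)))
        (Poly.pair (Poly.not (Poly.fst (Poly.fst (Poly.snd Poly.id)))) (NPC.Poly.const _))
        (Poly.pair (Poly.fst (Poly.fst (Poly.snd Poly.id))) (NPC.Poly.const _)))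
        (Poly.fst (Poly.snd Poly.id))
    · intro a k _
      generalize (List.take k a.1).foldl (gstep a.2) (false, true) = t
      obtain ⟨t1, t2⟩ := t
      have h1 := sz_bool_le t1
      have h2 := sz_bool_le t2
      simp only [sz_pair, Polynomial.eval_ofNat]
      omega
  exact (Poly.fst h).congr fun z => (gs_eq z.2 z.1 false).symm

/-- the step of the computation of the new hypothesis -/
def ustep (X : List ℕ) (t : Bool × List (List ℕ)) (H : List ℕ) : Bool × List (List ℕ) :=
  bif t.1 then (true, H :: t.2) else
    (bif sub H X then (false, H :: t.2) else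
      (true, (H.filter fun h => decide (h ∈ X)) :: t.2))

theorem ustep_fold_true (X : List ℕ) (s r : List (List ℕ)) :
    s.foldl (ustep X) (true, r) = (true, s.reverse ++ r) := by
  induction s generalizing r with
  | nil => rfl
  | cons H s ih =>
    rw [List.foldl_cons]
    change s.foldl (ustep X) (true, H :: r) = _
    rw [ih]
    simp

/-- the last step -/
def ufin (X : List ℕ) (t : Bool × List (List ℕ)) : List (List ℕ) :=
  bif t.1 then t.2.reverse else (X :: t.2).reverse

theorem upd_eq (X : List ℕ) (s r : List (List ℕ)) :
    r.reverse ++ upd s X = ufin X (s.foldl (ustep X) (false, r)) := by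
  induction s generalizing r with
  | nil => simp [upd, ufin]
  | cons H s ih =>
    rw [List.foldl_cons, upd]
    by_cases h : sub H X = true
    · rw [if_pos h]
      have : ustep X (false, r) H = (false, H :: r) := by simp [ustep, h]
      rw [this, ← ih]
      simp
    · rw [if_neg h]
      have : ustep X (false, r) H = (true, (H.filter fun h => decide (h ∈ X)) :: r) := by
        rw [Bool.not_eq_true] at h
        simp [ustep, h]
      rw [this, ustep_fold_true]
      simp [ufin]

theorem sz_filter_le (H : List ℕ) (p : ℕ → Bool) : sz (H.filter p) ≤ sz H := by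
  induction H with
  | nil => simp
  | cons a H ih =>
    cases ha : p a
    · rw [List.filter_cons_of_neg (by simp [ha])]
      simp only [sz_list_cons]
      omega
    · rw [List.filter_cons_of_pos ha]
      simp only [sz_list_cons]
      omega

theorem sz_ustep (X : List ℕ) (s : List (List ℕ)) (t : Bool × List (List ℕ)) :
    sz (s.foldl (ustep X) t) ≤ sz s + sz t.2 + 4 := by
  induction s generalizing t with
  | nil =>
    obtain ⟨a, b⟩ := t
    have := sz_bool_le a
    simp only [List.foldl_nil, sz_pair]
    omega
  | cons H s ih =>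
    rw [List.foldl_cons]
    refine (ih _).trans ?_
    have h1 := sz_filter_le H fun h => decide (h ∈ X)
    have h2 : sz (ustep X t H).2 ≤ sz H + sz t.2 + 1 := by
      unfold ustep
      cases t.1 <;> cases sub H X <;> simp only [cond_true, cond_false, sz_list_cons] <;> omega
    simp only [sz_list_cons]
    omega

theorem poly_upd : Poly fun z : List (List ℕ) × List ℕ => upd z.1 z.2 := by
  have h : Poly fun z : List (List ℕ) × List ℕ =>
      z.1.foldl (ustep z.2) (false, ([] : List (List ℕ))) := by
    refine Poly.foldl (F := fun z : List (List ℕ) × List ℕ => ustep z.2) (Poly.fst Poly.id)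
      (NPC.Poly.const _) ?_ (Polynomial.X + 5) ?_
    · have hH : Poly fun p : (List (List ℕ) × List ℕ) × (Bool × List (List ℕ)) × List ℕ =>
          p.2.2 := Poly.snd (Poly.snd Poly.id)
      have hX : Poly fun p : (List (List ℕ) × List ℕ) × (Bool × List (List ℕ)) × List ℕ =>
          p.1.2 := Poly.snd (Poly.fst Poly.id)
      have ht : Poly fun p : (List (List ℕ) × List ℕ) × (Bool × List (List ℕ)) × List ℕ =>
          p.2.1 := Poly.fst (Poly.snd Poly.id)
      refine Poly.cond (Poly.fst ht) (Poly.pair (NPC.Poly.const _) (Poly.cons hH (Poly.snd ht)))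
        (Poly.cond (poly_sub hH hX) (Poly.pair (NPC.Poly.const _) (Poly.cons hH (Poly.snd ht)))
        (Poly.pair (NPC.Poly.const _) (Poly.cons (Poly.filter
          (p := fun (p : (List (List ℕ) × List ℕ) × (Bool × List (List ℕ)) × List ℕ) h =>
            decide (h ∈ p.1.2)) hH ?_) (Poly.snd ht))))
      exact Poly.decide_mem (Poly.snd Poly.id) (hX.comp (Poly.fst Poly.id))
    · intro a k _
      have h1 := sz_ustep a.2 (a.1.take k) (false, [])
      have h2 := NPC.Poly.sz_take_le a.1 k
      obtain ⟨a1, a2⟩ := a
      simp only [sz_list_nil, sz_pair, Polynomial.eval_add, Polynomial.eval_X,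
        Polynomial.eval_ofNat] at h1 h2 ⊢
      omega
  have h2 : Poly fun z : List (List ℕ) × List ℕ =>
      ufin z.2 (z.1.foldl (ustep z.2) (false, ([] : List (List ℕ)))) :=
    Poly.cond (Poly.fst h) (Poly.reverse (Poly.snd h))
      (Poly.reverse (Poly.cons (Poly.snd Poly.id) (Poly.snd h)))
  refine h2.congr fun z => ?_
  rw [← upd_eq]
  simp

theorem lrn_guess : PolyTimeComputable lrn.guess := by
  have h : PolyTimeComputable fun z : List (List ℕ) × List ℕ => gs false z.1 z.2 :=
    PolyTimeComputable.of_poly poly_gs
  exact h

theorem lrn_next : PolyTimeComputable lrn.next := by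
  have hs : Poly fun z : List (List ℕ) × List ℕ × Bool => z.1 := Poly.fst Poly.id
  have hX : Poly fun z : List (List ℕ) × List ℕ × Bool => z.2.1 := Poly.fst (Poly.snd Poly.id)
  have hb : Poly fun z : List (List ℕ) × List ℕ × Bool => z.2.2 := Poly.snd (Poly.snd Poly.id)
  have h : Poly fun z : List (List ℕ) × List ℕ × Bool =>
      if gs false z.1 z.2.1 = z.2.2 then z.1 else upd z.1 z.2.1 :=
    Poly.ite (Poly.decide_eq (poly_gs.comp (Poly.pair hs hX)) hb) hs
      (poly_upd.comp (Poly.pair hs hX))
  have h1 := PolyTimeComputable.of_poly h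
  exact h1

/-- The class is learnable in the infinite-attribute model. -/
theorem infLearnable {μ : ∀ n : ℕ, List (Finset (Fin n)) → ℕ} (hμ : Good μ) :
    InfLearnable (Nested μ) := by
  refine ⟨lrn, (Polynomial.X + 1) * Polynomial.X,
    Polynomial.X * (Polynomial.X + 1) + 1, lrn_guess, lrn_next, ?_⟩
  intro m c e hc l N D hl
  obtain ⟨L, hL, hs⟩ := exists_size hc
  obtain ⟨s, h1, h2, h3, h4⟩ := lrn_bound (L.map (Finset.map e)) N D l
    fun x hx => ⟨(hl x hx).2.1, (hl x hx).2.2⟩
  have hk : s.length ≤ (Nested μ).size m c := by
    have h5 := inv_length h2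
    rw [List.length_map] at h5
    exact h5.trans (hs ▸ hμ.length_le m L)
  have he : (l.map fun x => (x, c fun i => decide (e i ∈ x))) =
      l.map fun x => (x, nest false (L.map (Finset.map e)) fun v => decide (v ∈ x)) := by
    apply List.map_congr_left
    intro x _
    rw [nest_map, hL]
  rw [he]
  constructor
  · have h5 : lrn.mistakes (l.map fun x => (x, nest false (L.map (Finset.map e))
        fun v => decide (v ∈ x))) ≤ (N + 1) * s.length := by omega
    refine h5.trans ?_
    simp only [Polynomial.eval_mul, Polynomial.eval_add, Polynomial.eval_X, Polynomial.eval_one]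
    exact Nat.mul_le_mul (by omega) (by omega)
  · rw [h1]
    change sz s ≤ _
    refine (sz_le_length_mul s D h3).trans ?_
    simp only [Polynomial.eval_mul, Polynomial.eval_add, Polynomial.eval_X, Polynomial.eval_one]
    have := Nat.mul_le_mul (show s.length ≤ (Nested μ).size m c + D by omega)
      (show D + 1 ≤ (Nested μ).size m c + D + 1 by omega)
    omega

end Pool.Agent.R794.CT
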