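import Pool.Agent.R794.CT.B

/-!
# Every learner makes `n` mistakes; decision lists
-/

set_option autoImplicit false

namespace Pool.Agent.R794.CT

open Pool.Agent.NPC

/-! ### The lower bound -/

/-- The example in which all variables but `i` are true. -/
def exm {n : ℕ} (i : Fin n) : Fin n → Bool := fun j => decide (j ≠ i)

theorem nest_exm {n : ℕ} (V : Finset (Fin n)) (i : Fin n) :
    nest false [V] (exm i) = decide (i ∉ V) := by
  simp only [nest]
  by_cases h : i ∈ V
  · rw [if_neg]
    · simp [h]
    · intro h1
      simpa [exm] using h1 i h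
  · rw [if_pos]
    · simp [h]
    · intro v hv
      simp only [exm, ne_eq, decide_eq_true_eq]
      rintro rfl
      exact h hv

/-- For each learner there is a monotone conjunction on which it makes `n` mistakes. -/
theorem adversary (Λ : Learner (List Bool)) (n k : ℕ) (hk : k ≤ n) :
    ∃ (V : Finset (Fin n)) (l : List (Fin n)), (∀ i ∈ V, (i : ℕ) < k) ∧ (∀ i ∈ l, (i : ℕ) < k) ∧
      Λ.mistakes ((l.map exm).map fun x => (List.ofFn x, nest false [V] x)) = k := by
  induction k with
  | zero => exact ⟨∅, [], by simp, by simp, rfl⟩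
  | succ k ih =>
    obtain ⟨V, l, hV, hl, hm⟩ := ih (by omega)
    set i : Fin n := ⟨k, by omega⟩ with hi
    set s := Λ.state ((l.map exm).map fun x => (List.ofFn x, nest false [V] x)) with hs
    -- the new set gives the same labels on the old examples
    have key : ∀ W : Finset (Fin n), (∀ j : Fin n, (j : ℕ) < k → (j ∈ W ↔ j ∈ V)) →
        ((l.map exm).map fun x => (List.ofFn x, nest false [W] x)) =
          ((l.map exm).map fun x => (List.ofFn x, nest false [V] x)) := by
      intro W hW
      rw [List.map_map, List.map_map]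
      apply List.map_congr_left
      intro j hj
      simp only [Function.comp_apply, nest_exm, hW j (hl j hj)]
    have hiV : i ∉ V := fun h => by
      have := hV i h
      simp [hi] at this
    by_cases hg : Λ.guess (s, List.ofFn (exm i)) = true
    · -- the label is `false`
      refine ⟨insert i V, i :: l, ?_, ?_, ?_⟩
      · intro j hj
        rcases Finset.mem_insert.1 hj with rfl | hj
        · simp [hi]
        · have := hV j hj
          omega
      · intro j hj
        rcases List.mem_cons.1 hj with rfl | hj
        · simp [hi]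
        · have := hl j hj
          omega
      · simp only [List.map_cons, Learner.mistakes]
        rw [key (insert i V) (fun j hj => by
          rw [Finset.mem_insert]
          constructor
          · rintro (rfl | h)
            · simp [hi] at hj
            · exact h
          · exact Or.inr), hm, ← hs, hg, nest_exm]
        simp
    · refine ⟨V, i :: l, fun j hj => by have := hV j hj; omega, ?_, ?_⟩
      · intro j hj
        rcases List.mem_cons.1 hj with rfl | hj
        · simp [hi]
        · have := hl j hj
          omega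
      · simp only [List.map_cons, Learner.mistakes]
        rw [hm, ← hs, nest_exm, if_neg]
        simp only [hiV, not_false_eq_true, decide_true]
        exact hg

theorem many_mistakes (Λ : Learner (List Bool)) (n : ℕ) :
    ∃ (c : (Fin n → Bool) → Bool) (l : List (Fin n → Bool)),
      (Nested number).Mem n c ∧ (Nested number).size n c ≤ 1 ∧
      Λ.mistakes (l.map fun x => (List.ofFn x, c x)) = n := by
  obtain ⟨V, l, -, -, h⟩ := adversary Λ n n le_rfl
  exact ⟨nest false [V], l.map exm, ⟨[V], rfl⟩, size_le rfl, h⟩

theorem not_attributeEfficient : ¬ AttributeEfficient (Nested number) := by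
  rintro ⟨Λ, p, q, k, -, -, h⟩
  have h1 : ∀ n : ℕ, n ≤ p.eval 1 * (Nat.log 2 n + 1) ^ k := by
    intro n
    obtain ⟨c, l, hc, hs, hm⟩ := many_mistakes Λ n
    have h2 := (h n c hc l).1
    rw [hm] at h2
    refine h2.trans (Nat.mul_le_mul_right _ ?_)
    exact eval_mono p hs
  -- take `n = 2 ^ t`
  have h2 : ∀ t : ℕ, 2 ^ t ≤ p.eval 1 * (t + 1) ^ k := by
    intro t
    have := h1 (2 ^ t)
    rwa [Nat.log_pow (by norm_num)] at this
  have h3 : Filter.Tendsto (fun t : ℕ => ((t : ℝ) ^ k) / 2 ^ t) Filter.atTop (nhds 0) :=
    tendsto_pow_const_div_const_pow_of_one_lt k (by norm_num)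
  have h4 := (Filter.tendsto_add_atTop_iff_nat 1).2 h3
  have h5 : (0 : ℝ) < 1 / (2 * (p.eval 1 + 1)) := by positivity
  obtain ⟨t, ht⟩ := (h4.eventually (gt_mem_nhds h5)).exists
  have h6 : ((2 : ℝ) ^ t) ≤ p.eval 1 * ((t : ℝ) + 1) ^ k := by exact_mod_cast h2 t
  rw [div_lt_div_iff₀ (by positivity) (by positivity)] at ht
  push_cast at ht
  rw [pow_succ] at ht
  have h7 : (0 : ℝ) < ((t : ℝ) + 1) ^ k := by positivity
  nlinarith

/-! ### Decision lists -/

/-- the description as a nested difference of a decision list in which all rules test whether a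
variable is false; `b` is the present value -/
def chain {V : Type} (d : Bool) : Bool → List (V × Bool) → List (Finset V)
  | b, [] => if b = d then [] else [∅]
  | b, r :: L => if r.2 = b then {r.1} :: chain d (!b) L else ∅ :: {r.1} :: chain d b L

theorem chain_total {n : ℕ} (d b : Bool) (L : List (Fin n × Bool)) :
    total n (chain d b L) ≤ 3 * (L.length + 1) := by
  induction L generalizing b with
  | nil =>
    unfold chain total
    split_ifs <;> simp
  | cons r L ih =>
    have h1 := ih b
    have h2 := ih (!b)
    unfold total at h1 h2 ⊢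
    rw [chain]
    split_ifs
    · simp only [List.length_cons, List.map_cons, List.sum_cons, Finset.card_singleton]
      omega
    · simp only [List.length_cons, List.map_cons, List.sum_cons, Finset.card_singleton,
        Finset.card_empty]
      omega

/-- the variable of `{0,1}^(2n)` tested by a rule -/
def lit {n : ℕ} (r : Fin n × Bool × Bool) : Fin (n + n) × Bool :=
  (if r.2.1 = true then Fin.natAdd n r.1 else Fin.castAdd n r.1, r.2.2)

/-- the point `(x, not x)` -/
def dbl {n : ℕ} (x : Fin n → Bool) : Fin (n + n) → Bool := Fin.append x fun i => !(x i)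

theorem dbl_lit {n : ℕ} (r : Fin n × Bool × Bool) (x : Fin n → Bool) :
    dbl x (lit r).1 = true ↔ x r.1 ≠ r.2.1 := by
  obtain ⟨v, s, o⟩ := r
  unfold dbl lit
  cases s with
  | true =>
    change Fin.append x (fun i => !(x i)) (Fin.natAdd n v) = true ↔ x v ≠ true
    rw [Fin.append_right]
    cases x v <;> simp
  | false => simp

theorem chain_eval {n : ℕ} (d b : Bool) (L : List (Fin n × Bool × Bool)) (x : Fin n → Bool) :
    nest b (chain d b (L.map lit)) (dbl x) = dlist d L x := by
  induction L generalizing b with
  | nil =>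
    simp only [List.map_nil, chain, dlist]
    split_ifs with h
    · simpa [nest] using h
    · simp only [nest, Finset.notMem_empty, false_implies, implies_true, if_true]
      cases b <;> cases d <;> simp_all
  | cons r L ih =>
    have hl := dbl_lit r x
    have h2 : (lit r).2 = r.2.2 := rfl
    simp only [List.map_cons, chain, dlist]
    by_cases hx : x r.1 = r.2.1
    · have h3 : ¬ (dbl x (lit r).1 = true) := fun h => hl.1 h hx
      rw [if_pos hx]
      split_ifs with h
      · simp only [nest, Finset.mem_singleton, forall_eq, h3]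
        rw [if_neg (by simp), ← h, h2]
      · simp only [nest, Finset.mem_singleton, forall_eq, h3, Finset.notMem_empty, false_implies,
          implies_true, if_true]
        rw [if_neg (by simp)]
        rw [h2] at h
        cases b <;> cases hr : r.2.2 <;> simp_all
    · have h3 : dbl x (lit r).1 = true := hl.2 hx
      rw [if_neg hx]
      split_ifs with h
      · simp only [nest, Finset.mem_singleton, forall_eq, h3, if_true]
        exact ih (!b)
      · simp only [nest, Finset.mem_singleton, forall_eq, h3, Finset.notMem_empty, false_implies,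
          implies_true, if_true, Bool.not_not]
        exact ih b

theorem ofFn_dbl {n : ℕ} (x : Fin n → Bool) :
    List.ofFn (dbl x) = List.ofFn x ++ (List.ofFn x).map not := by
  unfold dbl
  rw [List.ofFn_fin_append, List.map_ofFn]
  rfl

/-- the learner on the doubled example -/
def dblLearner (Λ : Learner (List Bool)) : Learner (List Bool) where
  State := Λ.State
  start := Λ.start
  guess z := Λ.guess (z.1, z.2 ++ z.2.map not)
  next z := Λ.next (z.1, z.2.1 ++ z.2.1.map not, z.2.2)

theorem dbl_state (Λ : Learner (List Bool)) {n : ℕ} (c : (Fin n → Bool) → Bool)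
    (c2 : (Fin (n + n) → Bool) → Bool) (h : ∀ x, c2 (dbl x) = c x) (l : List (Fin n → Bool)) :
    (dblLearner Λ).state (l.map fun x => (List.ofFn x, c x)) =
      Λ.state ((l.map dbl).map fun x => (List.ofFn x, c2 x)) := by
  induction l with
  | nil => rfl
  | cons x l ih =>
    simp only [List.map_cons, Learner.state]
    rw [← ih, h, ofFn_dbl]
    rfl

theorem dbl_mistakes (Λ : Learner (List Bool)) {n : ℕ} (c : (Fin n → Bool) → Bool)
    (c2 : (Fin (n + n) → Bool) → Bool) (h : ∀ x, c2 (dbl x) = c x) (l : List (Fin n → Bool)) :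
    (dblLearner Λ).mistakes (l.map fun x => (List.ofFn x, c x)) =
      Λ.mistakes ((l.map dbl).map fun x => (List.ofFn x, c2 x)) := by
  induction l with
  | nil => rfl
  | cons x l ih =>
    simp only [List.map_cons, Learner.mistakes]
    rw [← ih, h, ofFn_dbl, ← dbl_state Λ c c2 h]
    rfl

theorem ptc_dbl {A B : Type} [TEnc A] [TEnc B] {f : A × List Bool → B}
    (hf : PolyTimeComputable f) :
    PolyTimeComputable fun z : A × List Bool => f (z.1, z.2 ++ z.2.map not) := by
  obtain ⟨F, h1, h2⟩ := hf
  have h3 : Poly fun z : T × List Bool => (z.1, z.2 ++ z.2.map not) :=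
    Poly.pair (Poly.fst Poly.id) (Poly.append (Poly.snd Poly.id)
      (NPC.Poly.map (F := fun _ => not) (Poly.snd Poly.id) (NPC.Poly.not (Poly.snd Poly.id))))
  obtain ⟨G, h4, h5⟩ := PolyTimeComputable.of_poly h3
  refine ⟨fun x => F (G x), H642R2.TMSim.polyTime_comp h1 h4, fun z => ?_⟩
  have h6 := h5 (toT z.1, z.2)
  have h7 : bits (toT z.1, z.2) = bits z := rfl
  rw [h7] at h6
  change F (G (bits z)) = _
  rw [h6]
  exact h2 (z.1, z.2 ++ z.2.map not)

theorem ptc_dbl2 {A B : Type} [TEnc A] [TEnc B] {f : A × List Bool × Bool → B}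
    (hf : PolyTimeComputable f) :
    PolyTimeComputable fun z : A × List Bool × Bool =>
      f (z.1, z.2.1 ++ z.2.1.map not, z.2.2) := by
  obtain ⟨F, h1, h2⟩ := hf
  have h3 : Poly fun z : T × List Bool × Bool => (z.1, z.2.1 ++ z.2.1.map not, z.2.2) :=
    Poly.pair (Poly.fst Poly.id) (Poly.pair (Poly.append (Poly.fst (Poly.snd Poly.id))
      (NPC.Poly.map (F := fun _ => not) (Poly.fst (Poly.snd Poly.id)) (NPC.Poly.not (Poly.snd Poly.id))))
      (Poly.snd (Poly.snd Poly.id)))
  obtain ⟨G, h4, h5⟩ := PolyTimeComputable.of_poly h3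
  refine ⟨fun x => F (G x), H642R2.TMSim.polyTime_comp h1 h4, fun z => ?_⟩
  have h6 := h5 (toT z.1, z.2.1, z.2.2)
  have h7 : bits (toT z.1, z.2.1, z.2.2) = bits z := rfl
  rw [h7] at h6
  change F (G (bits z)) = _
  rw [h6]
  exact h2 (z.1, z.2.1 ++ z.2.1.map not, z.2.2)

theorem log_add_self (n : ℕ) : Nat.log 2 (n + n) + 1 ≤ 2 * (Nat.log 2 n + 1) := by
  rcases Nat.eq_zero_or_pos n with rfl | hn
  · simp
  · have : Nat.log 2 (n + n) = Nat.log 2 n + 1 := by
      rw [show n + n = n * 2 by ring, Nat.log_mul_base (by norm_num) hn.ne']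
    omega

/-- If the class, with the total length as size, has an attribute-efficient algorithm, then
decision lists have one. -/
theorem decisionLists (h : AttributeEfficient (Nested total)) :
    AttributeEfficient DecisionLists := by
  obtain ⟨Λ, p, q, k, hg, hn, h⟩ := h
  refine ⟨dblLearner Λ, Polynomial.C (2 ^ k) * p.comp (Polynomial.C 3 * Polynomial.X),
    q.comp (Polynomial.C 3 * Polynomial.X), k, ptc_dbl hg, ptc_dbl2 hn, ?_⟩
  intro n c hc l
  obtain ⟨d, L, hL, hs⟩ := Nat.sInf_mem (s := {s | ∃ (d : Bool) (L : List (Fin n × Bool × Bool)),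
    c = dlist d L ∧ s = L.length + 1}) (by
      obtain ⟨d, L, hL⟩ := hc
      exact ⟨_, d, L, hL, rfl⟩)
  set c2 : (Fin (n + n) → Bool) → Bool := nest false (chain d false (L.map lit)) with hc2
  have h2 : ∀ x, c2 (dbl x) = c x := by
    intro x
    rw [hc2, hL]
    exact chain_eval d false L x
  have hsize : (Nested total).size (n + n) c2 ≤ 3 * DecisionLists.size n c := by
    refine (size_le (μ := total) hc2).trans ((chain_total d false (L.map lit)).trans ?_)
    rw [List.length_map, ← hs]
    exact le_rfl
  obtain ⟨h3, h4⟩ := h (n + n) c2 ⟨_, hc2⟩ (l.map dbl)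
  rw [dbl_mistakes Λ c c2 h2, dbl_state Λ c c2 h2]
  constructor
  · refine h3.trans ?_
    simp only [Polynomial.eval_mul, Polynomial.eval_C, Polynomial.eval_comp, Polynomial.eval_X]
    calc _ ≤ p.eval (3 * DecisionLists.size n c) * (2 * (Nat.log 2 n + 1)) ^ k :=
          Nat.mul_le_mul (eval_mono p hsize) (Nat.pow_le_pow_left (log_add_self n) k)
      _ = _ := by rw [mul_pow]; ring
  · refine h4.trans ?_
    simp only [Polynomial.eval_comp, Polynomial.eval_mul, Polynomial.eval_C, Polynomial.eval_X]
    exact eval_mono q (by omega)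

end Pool.Agent.R794.CT
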