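import Pool.Agent.R794.CT.Defs

/-!
# The mistake bound in terms of the number of relevant variables
-/

set_option autoImplicit false

namespace Pool.Agent.R794.CT

open Pool.Agent.NPC Finset

/-- the true variables of the example `x` in `V` -/
def restr (V : Finset ℕ) (x : List Bool) : List ℕ :=
  (List.range x.length).filter fun i => decide (i ∈ V) && x.getD i false

theorem restr_nodup (V : Finset ℕ) (x : List Bool) : (restr V x).Nodup :=
  List.Nodup.filter _ List.nodup_range

theorem restr_length (V : Finset ℕ) (x : List Bool) : (restr V x).length ≤ V.card := by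
  rw [← List.toFinset_card_of_nodup (restr_nodup V x)]
  apply Finset.card_le_card
  intro i hi
  simp only [restr, List.mem_toFinset, List.mem_filter, Bool.and_eq_true, decide_eq_true_eq] at hi
  exact hi.2.1

variable (Λ : Learner (List ℕ))

/-- the labelled examples, restricted to `V` -/
def rl (V : Finset ℕ) (h : List (List Bool × Bool)) : List (List ℕ × Bool) :=
  h.map fun z => (restr V z.1, z.2)

/-- the weight of the expert `V` after the examples `h` -/
noncomputable def wt (n : ℕ) (h : List (List Bool × Bool)) (V : Finset ℕ) : ℝ :=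
  (1 / ((n : ℝ) + 1)) ^ V.card * (1 / 2) ^ Λ.mistakes (rl V h)

/-- the guess of the expert `V` on `x` -/
def ex (h : List (List Bool × Bool)) (x : List Bool) (V : Finset ℕ) : Bool :=
  Λ.guess (Λ.state (rl V h), restr V x)

/-- the total weight of the experts which guess `b` -/
noncomputable def side (n : ℕ) (h : List (List Bool × Bool)) (x : List Bool) (b : Bool) : ℝ :=
  ∑ V ∈ (range n).powerset with ex Λ h x V = b, wt Λ n h V

open Classical in
/-- the weighted majority learner -/
noncomputable def maj : Learner (List Bool) where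
  State := List (List Bool × Bool)
  start := []
  guess z := decide (side Λ z.2.length z.1 z.2 false ≤ side Λ z.2.length z.1 z.2 true)
  next z := (z.2.1, z.2.2) :: z.1

theorem maj_state (h : List (List Bool × Bool)) : (maj Λ).state h = h := by
  induction h with
  | nil => rfl
  | cons z h ih =>
    rw [Learner.state, ih]
    rfl

theorem wt_nonneg (n : ℕ) (h : List (List Bool × Bool)) (V : Finset ℕ) : 0 ≤ wt Λ n h V := by
  unfold wt
  positivity

theorem wt_cons (n : ℕ) (h : List (List Bool × Bool)) (x : List Bool) (b : Bool)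
    (V : Finset ℕ) : wt Λ n ((x, b) :: h) V =
      if ex Λ h x V = b then wt Λ n h V else wt Λ n h V / 2 := by
  unfold wt rl ex rl
  rw [List.map_cons, Learner.mistakes]
  split_ifs
  · rw [add_zero]
  · rw [pow_add, pow_one]
    ring

/-- the total weight -/
noncomputable def tw (n : ℕ) (h : List (List Bool × Bool)) : ℝ :=
  ∑ V ∈ (range n).powerset, wt Λ n h V

theorem tw_eq (n : ℕ) (h : List (List Bool × Bool)) (x : List Bool) (b : Bool) :
    tw Λ n h = side Λ n h x b + side Λ n h x (!b) := by
  unfold tw side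
  rw [← Finset.sum_filter_add_sum_filter_not (range n).powerset (fun V => ex Λ h x V = b)]
  congr 1
  apply Finset.sum_congr _ fun _ _ => rfl
  ext V
  simp only [Finset.mem_filter]
  cases ex Λ h x V <;> cases b <;> simp

theorem tw_cons (n : ℕ) (h : List (List Bool × Bool)) (x : List Bool) (b : Bool) :
    tw Λ n ((x, b) :: h) = side Λ n h x b + side Λ n h x (!b) / 2 := by
  unfold tw side
  rw [← Finset.sum_filter_add_sum_filter_not (range n).powerset (fun V => ex Λ h x V = b),
    Finset.sum_div]
  congr 1
  · apply Finset.sum_congr rfl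
    intro V hV
    rw [wt_cons, if_pos (Finset.mem_filter.1 hV).2]
  · have : (Finset.filter (fun V => ¬ ex Λ h x V = b) (range n).powerset) =
        Finset.filter (fun V => ex Λ h x V = !b) (range n).powerset := by
      ext V
      simp only [Finset.mem_filter]
      cases ex Λ h x V <;> cases b <;> simp
    rw [this]
    apply Finset.sum_congr rfl
    intro V hV
    rw [wt_cons, if_neg]
    have := (Finset.mem_filter.1 hV).2
    rw [this]
    cases b <;> simp

theorem side_nonneg (n : ℕ) (h : List (List Bool × Bool)) (x : List Bool) (b : Bool) :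
    0 ≤ side Λ n h x b :=
  Finset.sum_nonneg fun V _ => wt_nonneg Λ n h V

theorem tw_le (n : ℕ) (h : List (List Bool × Bool)) (hn : ∀ z ∈ h, z.1.length = n) :
    tw Λ n h ≤ (3 / 4) ^ (maj Λ).mistakes h * tw Λ n [] := by
  induction h with
  | nil => simp [Learner.mistakes]
  | cons z h ih =>
    obtain ⟨x, b⟩ := z
    have ih := ih fun z hz => hn z (List.mem_cons_of_mem _ hz)
    have hx : x.length = n := hn (x, b) List.mem_cons_self
    rw [Learner.mistakes, maj_state, tw_cons]
    have h1 := tw_eq Λ n h x b
    have h2 := side_nonneg Λ n h x b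
    have h3 := side_nonneg Λ n h x (!b)
    by_cases hg : (maj Λ).guess (h, (x, b).1) = (x, b).2
    · rw [if_pos hg, add_zero]
      linarith
    · rw [if_neg hg, pow_add, pow_one]
      have h4 : side Λ n h x b ≤ side Λ n h x (!b) := by
        have hg' : ¬ decide (side Λ n h x false ≤ side Λ n h x true) = b := by
          rw [← hx]
          exact hg
        cases b with
        | true =>
          rw [decide_eq_true_eq] at hg'
          simp only [Bool.not_true]
          linarith
        | false =>
          rw [decide_eq_false_iff_not, not_not] at hg'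
          exact hg'
      nlinarith

theorem tw_nil (n : ℕ) : tw Λ n [] ≤ 4 := by
  have h1 : tw Λ n [] = (1 / ((n : ℝ) + 1) + 1) ^ n := by
    unfold tw wt
    have h2 := Finset.sum_pow_mul_eq_add_pow (1 / ((n : ℝ) + 1)) 1 (range n)
    rw [card_range] at h2
    rw [← h2]
    apply Finset.sum_congr rfl
    intro V _
    simp [rl, Learner.mistakes]
  rw [h1]
  have h2 : (1 / ((n : ℝ) + 1) + 1) ≤ Real.exp (1 / ((n : ℝ) + 1)) := Real.add_one_le_exp _
  have h3 : (1 / ((n : ℝ) + 1) + 1) ^ n ≤ Real.exp (1 / ((n : ℝ) + 1)) ^ n :=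
    pow_le_pow_left₀ (by positivity) h2 n
  refine h3.trans ?_
  rw [← Real.exp_nat_mul]
  have h4 : (n : ℝ) * (1 / ((n : ℝ) + 1)) ≤ 1 := by
    rw [mul_one_div, div_le_one (by positivity)]
    linarith
  have h5 : Real.exp ((n : ℝ) * (1 / ((n : ℝ) + 1))) ≤ Real.exp 1 := Real.exp_le_exp.2 h4
  have h6 := Real.exp_one_lt_d9
  linarith

theorem maj_bound (n : ℕ) (h : List (List Bool × Bool)) (hn : ∀ z ∈ h, z.1.length = n)
    (V : Finset ℕ) (hV : V ⊆ range n) :
    (maj Λ).mistakes h ≤ 3 * (V.card * (Nat.log 2 n + 1) + Λ.mistakes (rl V h) + 2) + 2 := by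
  set E := (maj Λ).mistakes h with hE
  set m := Λ.mistakes (rl V h) with hm
  have h1 := tw_le Λ n h hn
  have h2 := tw_nil Λ n
  have h3 : wt Λ n h V ≤ tw Λ n h :=
    Finset.single_le_sum (f := wt Λ n h) (fun V _ => wt_nonneg Λ n h V)
      (Finset.mem_powerset.2 hV)
  rw [← hE] at h1
  have h4 : wt Λ n h V ≤ (3 / 4) ^ E * 4 :=
    h3.trans (h1.trans (mul_le_mul_of_nonneg_left h2 (by positivity)))
  have h5 : ((n : ℝ) + 1) ≤ 2 ^ (Nat.log 2 n + 1) := by
    have : n < 2 ^ (Nat.log 2 n + 1) := Nat.lt_pow_succ_log_self (by norm_num) n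
    exact_mod_cast this
  have h6 : (1 / 2 : ℝ) ^ (V.card * (Nat.log 2 n + 1) + m) ≤ wt Λ n h V := by
    unfold wt
    rw [pow_add, ← hm]
    apply mul_le_mul_of_nonneg_right _ (by positivity)
    rw [mul_comm, pow_mul]
    apply pow_le_pow_left₀ (by positivity)
    rw [one_div_pow]
    exact one_div_le_one_div_of_le (by positivity) h5
  have h7 : (1 / 2 : ℝ) ^ (V.card * (Nat.log 2 n + 1) + m) ≤ (3 / 4) ^ E * 4 := h6.trans h4
  set B := V.card * (Nat.log 2 n + 1) + m with hB
  -- `(3/4)^3 < 1/2`
  have h8 : (3 / 4 : ℝ) ^ E ≤ (1 / 2) ^ (E / 3) := by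
    have e1 : E = 3 * (E / 3) + E % 3 := (Nat.div_add_mod E 3).symm
    calc (3 / 4 : ℝ) ^ E = ((3 / 4) ^ 3) ^ (E / 3) * (3 / 4) ^ (E % 3) := by
          rw [← pow_mul, ← pow_add, ← e1]
      _ ≤ (1 / 2) ^ (E / 3) * 1 := by
          apply mul_le_mul
          · exact pow_le_pow_left₀ (by positivity) (by norm_num) _
          · exact pow_le_one₀ (by norm_num) (by norm_num)
          · positivity
          · positivity
      _ = _ := mul_one _
  have h9 : (1 / 2 : ℝ) ^ (B + 2) ≤ (1 / 2) ^ (E / 3) := by
    rw [pow_add]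
    have : (1 / 2 : ℝ) ^ B ≤ (1 / 2) ^ (E / 3) * 4 :=
      h7.trans (mul_le_mul_of_nonneg_right h8 (by norm_num))
    nlinarith
  have h10 : E / 3 ≤ B + 2 := by
    by_contra hc
    push Not at hc
    have : (1 / 2 : ℝ) ^ (E / 3) < (1 / 2) ^ (B + 2) :=
      pow_lt_pow_right_of_lt_one₀ (by norm_num) (by norm_num) hc
    linarith
  omega

/-- **The converse holds for the number of mistakes, if the number of relevant variables counts.**
-/
theorem relevant (C : ConceptClass) (hC : InfLearnable C) :
    ∃ (Λ' : Learner (List Bool)) (p : Polynomial ℕ), ∀ (n : ℕ) (c : (Fin n → Bool) → Bool),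
      C.Mem n c → ∀ R : Finset (Fin n), (∀ x y : Fin n → Bool, (∀ i ∈ R, x i = y i) → c x = c y) →
        ∀ l : List (Fin n → Bool), Λ'.mistakes (l.map fun x => (List.ofFn x, c x)) ≤
          p.eval (C.size n c + R.card) * (Nat.log 2 n + 1) := by
  obtain ⟨Λ, p, q, -, -, h⟩ := hC
  refine ⟨maj Λ, 3 * (Polynomial.X + p + 2) + 2, fun n c hc R hR l => ?_⟩
  set V : Finset ℕ := R.map Fin.valEmbedding with hV
  have hVn : V ⊆ range n := by
    intro i hi
    rw [hV, Finset.mem_map] at hi
    obtain ⟨j, -, rfl⟩ := hi
    simp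
  have h1 := maj_bound Λ n (l.map fun x => (List.ofFn x, c x)) (by
    intro z hz
    rw [List.mem_map] at hz
    obtain ⟨x, -, rfl⟩ := hz
    simp) V hVn
  have h2 : rl V (l.map fun x => (List.ofFn x, c x)) =
      (l.map fun x => restr V (List.ofFn x)).map fun X =>
        (X, c fun i => decide (Fin.valEmbedding i ∈ X)) := by
    unfold rl
    rw [List.map_map, List.map_map]
    apply List.map_congr_left
    intro x _
    simp only [Function.comp_apply, Prod.mk.injEq, true_and]
    apply hR
    intro i hi
    have : ((Fin.valEmbedding i : ℕ) ∈ restr V (List.ofFn x)) ↔ x i = true := by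
      simp only [restr, List.length_ofFn, Fin.valEmbedding_apply, List.mem_filter, List.mem_range,
        i.isLt, true_and, Bool.and_eq_true, decide_eq_true_eq]
      rw [List.getD_eq_getElem _ _ (by simp), List.getElem_ofFn]
      constructor
      · exact fun h => h.2
      · intro h
        refine ⟨?_, h⟩
        rw [hV, Finset.mem_map]
        exact ⟨i, hi, rfl⟩
    cases hx : x i
    · rw [hx] at this
      symm
      rw [decide_eq_false_iff_not, this]
      simp
    · rw [hx] at this
      symm
      rw [decide_eq_true_eq, this]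
  -- the largest description
  obtain ⟨D, hD⟩ : ∃ D, ∀ X ∈ l.map fun x => restr V (List.ofFn x), (bits X).length ≤ D := by
    refine ⟨((l.map fun x => restr V (List.ofFn x)).map fun X => (bits X).length).sum,
      fun X hX => ?_⟩
    exact List.single_le_sum (by simp) _ (List.mem_map_of_mem hX)
  have h3 := (h n c Fin.valEmbedding hc (l.map fun x => restr V (List.ofFn x)) R.card D (by
    intro X hX
    refine ⟨?_, ?_, hD X hX⟩
    · rw [List.mem_map] at hX
      obtain ⟨x, -, rfl⟩ := hX
      exact restr_nodup _ _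
    · rw [List.mem_map] at hX
      obtain ⟨x, -, rfl⟩ := hX
      refine (restr_length _ _).trans ?_
      rw [hV, Finset.card_map])).1
  rw [h2] at h1
  refine h1.trans ?_
  have h4 : V.card = R.card := by rw [hV, Finset.card_map]
  rw [h4]
  have h5 : (3 * (Polynomial.X + p + 2) + 2 : Polynomial ℕ).eval (C.size n c + R.card) =
      3 * ((C.size n c + R.card) + p.eval (C.size n c + R.card) + 2) + 2 := by
    simp [Polynomial.eval_add, Polynomial.eval_mul]
  rw [h5]
  have h6 : 1 ≤ Nat.log 2 n + 1 := by omega
  have h7 : R.card * (Nat.log 2 n + 1) ≤ (C.size n c + R.card) * (Nat.log 2 n + 1) :=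
    Nat.mul_le_mul_right _ (by omega)
  have h8 : p.eval (C.size n c + R.card) ≤ p.eval (C.size n c + R.card) * (Nat.log 2 n + 1) :=
    Nat.le_mul_of_pos_right _ (by omega)
  nlinarith

end Pool.Agent.R794.CT
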