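import Pool.Agent.NPC.Dec

/-!
# On-line learning: definitions for MP_8ec85b_lc
-/

set_option autoImplicit false

namespace Pool.Agent.R794.CT

open Pool.Agent.NPC

/-- `f` is computed in polynomial time by a Turing machine, on the codes of its arguments and
values. -/
def PolyTimeComputable {α β : Type} [TEnc α] [TEnc β] (f : α → β) : Prop :=
  ∃ F : List Bool → List Bool, PolyTime F ∧ ∀ a, F (bits a) = bits (f a)

/-- A concept class: for each `n` a set of Boolean functions on `{0,1}^n`, each of which has a
size. -/
structure ConceptClass where
  /-- the concepts on `{0,1}^n` -/
  Mem : (n : ℕ) → ((Fin n → Bool) → Bool) → Prop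
  /-- their sizes -/
  size : (n : ℕ) → ((Fin n → Bool) → Bool) → ℕ

/-- Concepts may be placed on any `m` of `n` variables; the size does not increase. -/
def EmbeddingClosed (C : ConceptClass) : Prop :=
  ∀ (m n : ℕ) (e : Fin m ↪ Fin n) (c : (Fin m → Bool) → Bool), C.Mem m c →
    C.Mem n (fun x => c fun i => x (e i)) ∧ C.size n (fun x => c fun i => x (e i)) ≤ C.size m c

open Classical in
/-- the point of `{0,1}^n` whose coordinates at the places `e i` are the `y i`, and whose other
coordinates are those of `a` -/
noncomputable def fill {m n : ℕ} (e : Fin m ↪ Fin n) (a : Fin n → Bool) (y : Fin m → Bool) :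
    Fin n → Bool :=
  fun j => if h : ∃ i, e i = j then y h.choose else a j

/-- The values of some of the variables (those which are not of the form `e i`) may be fixed; the
size does not increase. -/
def ProjectionClosed (C : ConceptClass) : Prop :=
  ∀ (m n : ℕ) (e : Fin m ↪ Fin n) (a : Fin n → Bool) (c : (Fin n → Bool) → Bool), C.Mem n c →
    C.Mem m (fun y => c (fill e a y)) ∧ C.size m (fun y => c (fill e a y)) ≤ C.size n c

/-- An on-line learner for examples of type `X`: it has a state, guesses the label of an example,
and computes its next state from the example and its label. -/
structure Learner (X : Type) where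
  /-- the states -/
  State : Type
  /-- the states are coded by binary trees -/
  [code : TEnc State]
  /-- the state at the beginning -/
  start : State
  /-- the guess -/
  guess : State × X → Bool
  /-- the next state -/
  next : State × X × Bool → State

attribute [instance] Learner.code

namespace Learner

variable {X : Type} (Λ : Learner X)

/-- the state after the given labelled examples (the last example comes first) -/
def state : List (X × Bool) → Λ.State
  | [] => Λ.start
  | z :: l => Λ.next (state l, z.1, z.2)

/-- the number of mistakes on the given labelled examples (the last example comes first) -/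
def mistakes : List (X × Bool) → ℕ
  | [] => 0
  | z :: l => mistakes l + if Λ.guess (Λ.state l, z.1) = z.2 then 0 else 1

end Learner

/-- `C` is learnable in the infinite-attribute model. The variables are the natural numbers, an
example is the list of its true variables, and the target is a concept `c` of `C` placed on
variables `e 0, e 1, …`. The number of mistakes is polynomial in the size of `c` and the number `N`
of true variables in the largest example, and the time per trial is polynomial in the size of `c`
and the length `D` of the longest description of an example: guesses and next states are computed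
in polynomial time, and the states have polynomially bounded codes. -/
def InfLearnable (C : ConceptClass) : Prop :=
  ∃ (Λ : Learner (List ℕ)) (p q : Polynomial ℕ),
    PolyTimeComputable Λ.guess ∧ PolyTimeComputable Λ.next ∧
    ∀ (m : ℕ) (c : (Fin m → Bool) → Bool) (e : Fin m ↪ ℕ), C.Mem m c →
      ∀ (l : List (List ℕ)) (N D : ℕ), (∀ x ∈ l, x.Nodup ∧ x.length ≤ N ∧ (bits x).length ≤ D) →
        Λ.mistakes (l.map fun x => (x, c fun i => decide (e i ∈ x))) ≤ p.eval (C.size m c + N) ∧
        (bits (Λ.state (l.map fun x => (x, c fun i => decide (e i ∈ x))))).length ≤
          q.eval (C.size m c + D)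

/-- There is an attribute-efficient algorithm for `C` over `{0,1}^n`: it makes at most
`poly(size) * polylog(n)` mistakes, and uses time polynomial in `n` and the size per trial. -/
def AttributeEfficient (C : ConceptClass) : Prop :=
  ∃ (Λ : Learner (List Bool)) (p q : Polynomial ℕ) (k : ℕ),
    PolyTimeComputable Λ.guess ∧ PolyTimeComputable Λ.next ∧
    ∀ (n : ℕ) (c : (Fin n → Bool) → Bool), C.Mem n c → ∀ l : List (Fin n → Bool),
      Λ.mistakes (l.map fun x => (List.ofFn x, c x)) ≤
        p.eval (C.size n c) * (Nat.log 2 n + 1) ^ k ∧
      (bits (Λ.state (l.map fun x => (List.ofFn x, c x)))).length ≤ q.eval (C.size n c + n)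

/-- The nested difference of the monotone conjunctions of the sets `A 1, …, A k` of variables: its
value is `b` if `A 1` is not satisfied, `!b` if `A 1` is and `A 2` is not satisfied, and so on; so
for `b = false` it is `A 1 \ (A 1 A 2 \ (A 1 A 2 A 3 \ …))`. -/
def nest {V : Type} (b : Bool) : List (Finset V) → (V → Bool) → Bool
  | [], _ => b
  | A :: L, x => if ∀ v ∈ A, x v = true then nest (!b) L x else b

/-- The class of the nested differences of monotone conjunctions. The size of a concept is the
least value of `μ` on its descriptions. -/
noncomputable def Nested (μ : ∀ n : ℕ, List (Finset (Fin n)) → ℕ) : ConceptClass where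
  Mem n c := ∃ L : List (Finset (Fin n)), c = nest false L
  size n c := sInf {s | ∃ L : List (Finset (Fin n)), c = nest false L ∧ s = μ n L}

/-- the number of the conjunctions -/
def number (n : ℕ) (L : List (Finset (Fin n))) : ℕ := L.length

/-- the number of the conjunctions plus the number of the variables in them -/
def total (n : ℕ) (L : List (Finset (Fin n))) : ℕ := L.length + (L.map Finset.card).sum

/-- The value of a decision list: `(v, s, o)` is the rule `if x v = s then o`, and `d` is the
default. -/
def dlist {n : ℕ} (d : Bool) : List (Fin n × Bool × Bool) → (Fin n → Bool) → Bool
  | [], _ => d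
  | r :: L, x => if x r.1 = r.2.1 then r.2.2 else dlist d L x

/-- The class of decision lists; the size is the number of rules, including the default. -/
noncomputable def DecisionLists : ConceptClass where
  Mem n c := ∃ (d : Bool) (L : List (Fin n × Bool × Bool)), c = dlist d L
  size n c := sInf {s | ∃ (d : Bool) (L : List (Fin n × Bool × Bool)), c = dlist d L ∧
    s = L.length + 1}

end Pool.Agent.R794.CT
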